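import Mathlib

namespace Pool.Agent.Results.MP_4e2f3e_nt.ShortAP
open Finset Pointwise Filter

/-- `L X`: the largest length `k ≤ N` of a progression `a, a+d, …, a+(k-1)d` (`d ≠ 0`) in `X` -/
noncomputable def L {N : ℕ} (X : Set (ZMod N)) : ℕ :=
  sSup {k | k ≤ N ∧ ∃ a d : ZMod N, d ≠ 0 ∧ ∀ i < k, a + (i : ZMod N) * d ∈ X}

lemma colour (N k : ℕ) [Fact N.Prime] (hk : k ≤ N) (h : 2 * N ^ 2 < 2 ^ k) :
    ∃ Y : Finset (ZMod N), ∀ a d : ZMod N, d ≠ 0 →
      (¬ ∀ i < k, a + (i : ZMod N) * d ∈ Y) ∧ ¬ ∀ i < k, a + (i : ZMod N) * d ∉ Y := by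
  classical
  by_contra hn
  push Not at hn
  let P : ZMod N × ZMod N → Finset (ZMod N) := fun p => (range k).image fun i : ℕ => p.1 + i * p.2
  have hP : ∀ p : ZMod N × ZMod N, p.2 ≠ 0 → (P p).card = k := fun p hp => by
    rw [card_image_of_injOn, card_range]
    intro i hi j hj hij
    have := mul_right_cancel₀ hp (add_left_cancel hij)
    rw [ZMod.natCast_eq_natCast_iff'] at this
    rwa [Nat.mod_eq_of_lt ((mem_range.1 hi).trans_le hk),
      Nat.mod_eq_of_lt ((mem_range.1 hj).trans_le hk)] at this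
  have sub : (univ : Finset (Finset (ZMod N))) ⊆
      (univ.filter fun p : ZMod N × ZMod N => p.2 ≠ 0).biUnion
        fun p => Icc (P p) univ ∪ Icc ∅ (P p)ᶜ := fun Y _ => by
    obtain ⟨a, d, hd, h1⟩ := hn Y
    refine mem_biUnion.2 ⟨(a, d), by simpa using hd, ?_⟩
    by_cases h2 : ∀ i < k, a + (i : ZMod N) * d ∈ Y
    · refine mem_union_left _ (mem_Icc.2 ⟨fun x hx => ?_, subset_univ _⟩)
      obtain ⟨i, hi, rfl⟩ := mem_image.1 hx
      exact h2 i (mem_range.1 hi)
    · push Not at h2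
      refine mem_union_right _ (mem_Icc.2 ⟨empty_subset _, fun x hx => mem_compl.2 fun hx' => ?_⟩)
      obtain ⟨i, hi, rfl⟩ := mem_image.1 hx'
      exact h1 h2 i (mem_range.1 hi) hx
  have c := (card_le_card sub).trans (card_biUnion_le_card_mul _ _ (2 * 2 ^ (N - k)) fun p hp => by
    have hp' := hP p (mem_filter.1 hp).2
    refine (card_union_le _ _).trans ?_
    rw [card_Icc_finset (subset_univ _), card_Icc_finset (empty_subset _), card_compl, hp']
    simp [two_mul])
  have c2 : (univ.filter fun p : ZMod N × ZMod N => p.2 ≠ 0).card ≤ N ^ 2 :=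
    (card_le_univ _).trans (by simp [sq])
  simp only [card_univ, Fintype.card_finset, ZMod.card] at c
  have e : 2 ^ N = 2 ^ k * 2 ^ (N - k) := by rw [← pow_add]; congr 1; omega
  have : 0 < 2 ^ (N - k) := by positivity
  nlinarith

lemma grow (η : ℝ) (hη : 0 < η) :
    ∀ᶠ N : ℕ in atTop, ((2 * Nat.log 2 N + 3 : ℕ) : ℝ) ≤ (N : ℝ) ^ η := by
  have h1 := ((tendsto_rpow_atTop (half_pos hη)).comp tendsto_natCast_atTop_atTop).eventually_ge_atTop
    (8 / η + 3)
  filter_upwards [h1, eventually_ge_atTop 1] with N h hN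
  have hN' : (1 : ℝ) ≤ N := by exact_mod_cast hN
  have h : 8 / η + 3 ≤ (N : ℝ) ^ (η / 2) := h
  have a1 : (2 : ℝ) ^ Nat.log 2 N ≤ N := by exact_mod_cast Nat.pow_log_le_self 2 (by omega)
  have a2 := Real.log_le_log (by positivity) a1
  rw [Real.log_pow] at a2
  have a3 := Real.log_le_rpow_div (by linarith : (0 : ℝ) ≤ N) (half_pos hη)
  have a4 := Real.log_two_gt_d9
  have a5 : (1 : ℝ) ≤ (N : ℝ) ^ (η / 2) := Real.one_le_rpow hN' (half_pos hη).le
  have e : (N : ℝ) ^ η = (N : ℝ) ^ (η / 2) * (N : ℝ) ^ (η / 2) := by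
    rw [← Real.rpow_add (by linarith)]; ring_nf
  have a6 : (N : ℝ) ^ (η / 2) / (η / 2) * 4 = 8 / η * (N : ℝ) ^ (η / 2) := by field_simp; ring
  have a7 : (0 : ℝ) ≤ Nat.log 2 N := by positivity
  push_cast
  rw [e]
  nlinarith [mul_le_mul_of_nonneg_right h (by linarith : (0 : ℝ) ≤ (N : ℝ) ^ (η / 2))]

lemma build (N : ℕ) [Fact N.Prime] (hN : 100 ≤ N) (W : Finset (ZMod N))
    (hW : N / 20 ≤ 2 * ((range (N / 20)).filter
      fun r => ((2 * (N / 3) + 1 + r : ℕ) : ZMod N) ∈ W).card) :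
    ∃ A : Finset (ZMod N), (N : ℝ) / 4 < A.card ∧ ((A + A).card : ℝ) ≤ 99 / 100 * N ∧
      ∀ x, x ∉ A + A → x ∈ W := by
  classical
  let p : ℕ → Prop := fun u => u ≤ N / 3 ∨ u = 2 * (N / 3) + 1 + N / 20 ∨
    ∃ r < N / 20, u = N - N / 20 + r ∧ ((2 * (N / 3) + 1 + r : ℕ) : ZMod N) ∉ W
  let A : Finset (ZMod N) := univ.filter fun x => p x.val
  have mem : ∀ u < N, p u → (u : ZMod N) ∈ A := fun u hu h => by
    simp only [A, mem_filter, mem_univ, true_and]
    rwa [ZMod.val_natCast_of_lt hu]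
  have inj : ∀ u < N, ∀ v < N, (u : ZMod N) = v → u = v := fun u hu v hv h => by
    rw [← ZMod.val_natCast_of_lt hu, h, ZMod.val_natCast_of_lt hv]
  refine ⟨A, ?_, ?_, fun x hx => ?_⟩
  · have : N / 3 + 1 ≤ A.card := by
      rw [← card_range (N / 3 + 1)]
      exact card_le_card_of_injOn (fun u => (u : ZMod N))
        (fun u hu => mem u (by have := mem_range.1 hu; omega) (Or.inl (by have := mem_range.1 hu; omega)))
        (fun u hu v hv h => inj u (by have := mem_range.1 hu; omega) v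
          (by have := mem_range.1 hv; omega) h)
    have : N < 4 * A.card := by omega
    have : (N : ℝ) < 4 * A.card := by exact_mod_cast this
    linarith
  · have : ((range (N / 20)).filter fun r => ((2 * (N / 3) + 1 + r : ℕ) : ZMod N) ∈ W).card
        ≤ (A + A)ᶜ.card := by
      refine card_le_card_of_injOn (fun r => ((2 * (N / 3) + 1 + r : ℕ) : ZMod N))
        (fun r hr => ?_) (fun u hu v hv h => ?_)
      · obtain ⟨h1, h2⟩ := mem_filter.1 hr
        have h1 := mem_range.1 h1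
        refine mem_compl.2 fun h => ?_
        obtain ⟨x, hx, y, hy, e⟩ := mem_add.1 h
        have e' := congrArg ZMod.val e
        rw [ZMod.val_natCast_of_lt (by omega), ZMod.val_add] at e'
        have x1 := ZMod.val_lt x
        have y1 := ZMod.val_lt y
        have e2 : x.val + y.val = 2 * (N / 3) + 1 + r ∨ x.val + y.val = 2 * (N / 3) + 1 + r + N := by
          by_cases hh : x.val + y.val < N
          · rw [Nat.mod_eq_of_lt hh] at e'; exact Or.inl e'
          · rw [Nat.mod_eq_sub_mod (by omega), Nat.mod_eq_of_lt (by omega)] at e'; omega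
        rcases (mem_filter.1 hx).2 with a | a | ⟨s, s1, s2, s3⟩ <;>
        rcases (mem_filter.1 hy).2 with b | b | ⟨t, t1, t2, t3⟩ <;>
        first
          | omega
          | exact t3 (by rwa [show t = r by omega])
          | exact s3 (by rwa [show s = r by omega])
      · have h1 := mem_range.1 (mem_filter.1 hu).1
        have h2 := mem_range.1 (mem_filter.1 hv).1
        have := inj _ (by omega) _ (by omega) h
        omega
    rw [card_compl, ZMod.card] at this
    have h2 : (A + A).card ≤ N := (card_le_univ _).trans (ZMod.card N).le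
    have : 100 * (A + A).card ≤ 99 * N := by omega
    have : (100 : ℝ) * (A + A).card ≤ 99 * N := by exact_mod_cast this
    linarith
  · by_contra hW'
    have x1 := ZMod.val_lt x
    have key : ∀ u < N, ∀ v < N, p u → p v → (u + v = x.val ∨ u + v = x.val + N) → False := by
      intro u hu v hv pu pv h
      refine hx (mem_add.2 ⟨u, mem u hu pu, v, mem v hv pv, ?_⟩)
      rw [← Nat.cast_add]
      rcases h with h | h <;> simp [h]
    by_cases c1 : x.val ≤ 2 * (N / 3)
    · exact key (x.val / 2) (by omega) (x.val - x.val / 2) (by omega) (Or.inl (by omega))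
        (Or.inl (by omega)) (by omega)
    by_cases c2 : 2 * (N / 3) + 1 + N / 20 ≤ x.val
    · exact key _ (by omega) (x.val - (2 * (N / 3) + 1 + N / 20)) (by omega) (Or.inr (Or.inl rfl))
        (Or.inl (by omega)) (by omega)
    refine key _ (by omega) (N - N / 20 + (x.val - (2 * (N / 3) + 1))) (by omega)
      (Or.inr (Or.inl rfl)) (Or.inr (Or.inr ⟨_, by omega, rfl, ?_⟩)) (by omega)
    rwa [show 2 * (N / 3) + 1 + (x.val - (2 * (N / 3) + 1)) = x.val by omega, ZMod.natCast_zmod_val]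

theorem result (η : ℝ) (hη : 0 < η) : ∃ N₀ : ℕ, ∀ (N : ℕ) [Fact N.Prime], N₀ ≤ N →
    ∃ A : Finset (ZMod N), (N : ℝ) / 4 < A.card ∧ ((A + A).card : ℝ) ≤ 99 / 100 * N ∧
      (L ((↑(A + A) : Set (ZMod N))ᶜ) : ℝ) ≤ (N : ℝ) ^ η := by
  classical
  obtain ⟨N₀, h⟩ := eventually_atTop.1
    ((grow η hη).and ((grow 1 one_pos).and (eventually_ge_atTop 100)))
  refine ⟨N₀, fun N _ hN => ?_⟩
  obtain ⟨h1, h2, h3⟩ := h N hN
  rw [Real.rpow_one] at h2
  obtain ⟨Y, hY⟩ := colour N (2 * Nat.log 2 N + 3) (by exact_mod_cast h2) (by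
    have := Nat.lt_pow_succ_log_self (b := 2) (by norm_num) N
    have := Nat.pow_lt_pow_left this (n := 2) (by norm_num)
    rw [← pow_mul] at this
    rw [show 2 * Nat.log 2 N + 3 = (Nat.log 2 N).succ * 2 + 1 by omega, pow_succ 2]
    omega)
  obtain ⟨W, w1, w2⟩ : ∃ W : Finset (ZMod N), N / 20 ≤ 2 * ((range (N / 20)).filter
      fun r => ((2 * (N / 3) + 1 + r : ℕ) : ZMod N) ∈ W).card ∧
      ∀ a d : ZMod N, d ≠ 0 → ¬ ∀ i < 2 * Nat.log 2 N + 3, a + (i : ZMod N) * d ∈ W := by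
    have := card_filter_add_card_filter_not (s := range (N / 20))
      (fun r => ((2 * (N / 3) + 1 + r : ℕ) : ZMod N) ∈ Y)
    rw [card_range] at this
    by_cases hc : N / 20 ≤ 2 * ((range (N / 20)).filter
      fun r => ((2 * (N / 3) + 1 + r : ℕ) : ZMod N) ∈ Y).card
    · exact ⟨Y, hc, fun a d hd => (hY a d hd).1⟩
    · refine ⟨Yᶜ, ?_, fun a d hd => ?_⟩
      · simp only [mem_compl]; omega
      · simpa only [mem_compl] using (hY a d hd).2
  obtain ⟨A, a1, a2, a3⟩ := build N h3 W w1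
  refine ⟨A, a1, a2, le_trans (Nat.cast_le.2 (csSup_le' ?_)) h1⟩
  rintro k ⟨-, a, d, hd, hk⟩
  by_contra hlt
  exact w2 a d hd fun i hi => a3 _ (hk i (by omega))

end Pool.Agent.Results.MP_4e2f3e_nt.ShortAP
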